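import Mathlib
import Pool.Agent.V11279.DF.G

set_option autoImplicit false

/-!
# Deformations of maximal equiangular tight frames

Let `x` be a maximal equiangular tight frame in `ℂ^d`, `d ≥ 2`. An infinitesimal deformation of `x`
is a family `v i` of vectors such that the derivative at `t = 0` of
`|⟪x i + t v i, x j + t v j⟫|²` vanishes for all `i, j`. The deformations
`v j = A (x j) + i θ j x j`, with `A` skew-adjoint and `θ j` real, are trivial; they form a space of
dimension `2 d² - 1`. We prove that the space of all infinitesimal deformations has dimension at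
most `2 d² - 1 + 2 (d - 1) (d - 2)`, and that the set of the Gram matrices of all maximal
equiangular tight frames, normalised by the condition that the inner products with a fixed vector
`x o` are positive (this is the moduli space of the maximal equiangular tight frames up to unitary
maps and changes of phases), has Hausdorff dimension at most `2 (d - 1) (d - 2)`.

Proof. The orthogonal projections of the projection `x k` to the tangent space of the projective
space at `x j` have the inner products `E j k l`, which are almost symmetric in `j, k, l`; the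
matrices `(d + 1) / d` times `E j` are projections of rank `2 (d - 1)` by the design property. The
derivatives `τ j k` of `|⟪x j, x k⟫|²` with respect to `x j` along a normalised infinitesimal
deformation form an antisymmetric array whose rows lie in the ranges of the `E j`. If `E` is the
projection of `ℝ^(d² × d²)` with the blocks `E j` and `T` is the transposition, then `S = E T E` is
`-1` on these arrays and `(d - 1) / (d + 1)` on a space of dimension `d² - 1`, and
`tr S = 0`, `tr S² = 4 d² (d - 1) / (d + 1)`. Comparing `S` with an operator which is constant on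
the orthogonal complement in the range of `E` of these two spaces gives the bound `3 (d - 1)²` for
the dimension of the space of these arrays.
-/

namespace Pool.Agent.Results.MP_d0f9e0_co.DeformationBound

open Pool.Agent.V11279.DF

/-- `x` is a maximal equiangular tight frame in `ℂ^d`. -/
def IsMaximalETF (d : ℕ) (x : Fin (d ^ 2) → EuclideanSpace ℂ (Fin d)) : Prop :=
  (∀ i, ‖x i‖ = 1) ∧ ∀ i j, i ≠ j → ‖inner ℂ (x i) (x j)‖ = 1 / Real.sqrt ((d : ℝ) + 1)

/-- `v` is an infinitesimal deformation of `x`: the derivatives at `t = 0` of all the functions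
`|⟪x i + t v i, x j + t v j⟫|²` vanish. -/
def IsDeformation {d : ℕ} (x v : Fin (d ^ 2) → EuclideanSpace ℂ (Fin d)) : Prop :=
  ∀ i j, HasDerivAt (fun t : ℝ => ‖inner ℂ (x i + t • v i) (x j + t • v j)‖ ^ 2) 0 0

/-- `v` is a trivial infinitesimal deformation of `x`: it comes from a skew-adjoint operator and a
change of phases. -/
def IsTrivialDeformation {d : ℕ} (x v : Fin (d ^ 2) → EuclideanSpace ℂ (Fin d)) : Prop :=
  ∃ (A : EuclideanSpace ℂ (Fin d) →ₗ[ℂ] EuclideanSpace ℂ (Fin d)) (θ : Fin (d ^ 2) → ℝ),
    (∀ u w, inner ℂ (A u) w = -inner ℂ u (A w)) ∧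
      ∀ j, v j = A (x j) + ((θ j : ℂ) * Complex.I) • x j

/-- The Gram matrices of the maximal equiangular tight frames `x` in `ℂ^d` for which the inner
products of all `x j` with `x o` are positive. -/
def normalisedGramMatrices (d : ℕ) (o : Fin (d ^ 2)) : Set (Fin (d ^ 2) → Fin (d ^ 2) → ℂ) :=
  {G | ∃ x : Fin (d ^ 2) → EuclideanSpace ℂ (Fin d), IsMaximalETF d x ∧
    (∀ j, ∃ r : ℝ, 0 < r ∧ inner ℂ (x o) (x j) = (r : ℂ)) ∧ ∀ i j, G i j = inner ℂ (x i) (x j)}

theorem mem_deform_iff {d : ℕ} (x v : Fin (d ^ 2) → EuclideanSpace ℂ (Fin d)) :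
    v ∈ Deform x ↔ IsDeformation x v := by
  have key : ∀ i j, HasDerivAt
      (fun t : ℝ => ‖inner ℂ (x i + t • v i) (x j + t • v j)‖ ^ 2)
      (2 * (inner ℂ (x j) (x i) * (inner ℂ (v i) (x j) + inner ℂ (x i) (v j))).re) 0 := by
    intro i j
    have hl : ∀ k, HasDerivAt (fun t : ℝ => x k + t • v k) (v k) 0 := by
      intro k
      have := ((hasDerivAt_id (0 : ℝ)).smul_const (v k)).const_add (x k)
      simpa using this
    have h1 := (hl i).inner ℂ (hl j)
    have h2 := (hl j).inner ℂ (hl i)
    have h3 := Complex.reCLM.hasFDerivAt.comp_hasDerivAt (0 : ℝ) (h2.mul h1)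
    have h4 : (fun t : ℝ => ‖inner ℂ (x i + t • v i) (x j + t • v j)‖ ^ 2) =
        (Complex.reCLM ∘ ((fun t : ℝ => (inner ℂ (x j + t • v j) (x i + t • v i) : ℂ)) *
          fun t : ℝ => (inner ℂ (x i + t • v i) (x j + t • v j) : ℂ))) := by
      ext t
      show _ = ((inner ℂ (x j + t • v j) (x i + t • v i) : ℂ) *
        (inner ℂ (x i + t • v i) (x j + t • v j) : ℂ)).re
      rw [← inner_conj_symm (x j + t • v j) (x i + t • v i), mul_comm, Complex.mul_conj,
        Complex.normSq_eq_norm_sq, Complex.ofReal_re]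
    rw [h4]
    refine h3.congr_deriv ?_
    simp only [zero_smul, add_zero, Complex.reCLM_apply]
    have h5 : (inner ℂ (x j) (v i) + inner ℂ (v j) (x i)) * inner ℂ (x i) (x j) =
        (starRingEnd ℂ) (inner ℂ (x j) (x i) * (inner ℂ (v i) (x j) + inner ℂ (x i) (v j))) := by
      rw [map_mul, map_add, inner_conj_symm, inner_conj_symm, inner_conj_symm]
      ring
    rw [Complex.add_re, h5, Complex.conj_re, add_comm (inner ℂ (x i) (v j))]
    ring
  constructor
  · intro hv i j
    have := key i j
    rw [hv i j, mul_zero] at this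
    exact this
  · intro hv i j
    have := (key i j).unique (hv i j)
    linarith

theorem result (d : ℕ) (hd : 2 ≤ d) :
    (∀ x : Fin (d ^ 2) → EuclideanSpace ℂ (Fin d), IsMaximalETF d x →
      ∃ D T : Submodule ℝ (Fin (d ^ 2) → EuclideanSpace ℂ (Fin d)),
        (∀ v, v ∈ D ↔ IsDeformation x v) ∧ (∀ v, v ∈ T ↔ IsTrivialDeformation x v) ∧ T ≤ D ∧
        Module.finrank ℝ T = 2 * d ^ 2 - 1 ∧
        Module.finrank ℝ D ≤ 2 * d ^ 2 - 1 + 2 * (d - 1) * (d - 2)) ∧
    ∀ o : Fin (d ^ 2),
      dimH (normalisedGramMatrices d o) ≤ ((2 * (d - 1) * (d - 2) : ℕ) : ENNReal) := by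
  have hd0 : 0 < d := by omega
  have hcard : Fintype.card (Fin (d ^ 2)) = d ^ 2 := Fintype.card_fin _
  refine ⟨fun x hx => ⟨Deform x, Triv x, mem_deform_iff x, fun v => Iff.rfl, triv_le_deform x,
    ?_, ?_⟩, fun o => ?_⟩
  · have := finrank_triv hd0 hcard x hx.1 hx.2
    omega
  · have h := finrank_deform_le hd hcard x hx.1 hx.2
    refine h.trans ?_
    obtain ⟨e, rfl⟩ : ∃ e, d = e + 2 := ⟨d - 2, by omega⟩
    have e1 : e + 2 - 1 = e + 1 := by omega
    have e2 : e + 2 - 2 = e := by omega
    have e3 : 2 * (e + 2) ^ 2 - 1 = 2 * e ^ 2 + 8 * e + 7 := by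
      have : 2 * (e + 2) ^ 2 = 2 * e ^ 2 + 8 * e + 8 := by ring
      omega
    rw [e1, e2, e3]
    nlinarith
  · refine (dimH_mono ?_).trans (dimH_normGram hd hcard o)
    rintro G ⟨x, hx, hpos, hG⟩
    refine ⟨x, hx.1, hx.2, fun j => ?_, hG⟩
    obtain ⟨r, hr, hj⟩ := hpos j
    rw [hj]
    exact ⟨by simpa using hr, by simp⟩

end Pool.Agent.Results.MP_d0f9e0_co.DeformationBound
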