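import Mathlib
import Pool.Agent.H239.PH.Phases

set_option autoImplicit false

/-!
# The distribution of the phases of the triple products of a maximal equiangular tight frame

The triple product `⟨x k, x i⟩⟨x i, x j⟩⟨x j, x k⟩` of three distinct lines of a maximal equiangular
tight frame in `ℂ^d` has the modulus `(d + 1)^(-3/2)`; its phase is the product with
`(d + 1)^(3/2)`. For every line `k` and all large sets `S`, `T` of lines the phases of the triples
`k, i, j` with `i ∈ S`, `j ∈ T` are distributed up to the scale of a quarter of the circle: every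
arc longer than a quarter of the circle contains a positive proportion of them, and every short arc
at most about a quarter of them. For two given lines this holds with a third instead of a quarter.
No symmetry of the frame is assumed.

Proof. For `m ≥ 2` the matrix of the numbers `⟨x i, x j⟩ ^ m` is positive, and its norm is at most
`2 d / (d + 1)`: for `m = 2` this is the tight frame of the vectors `x i ⊗ x i` in the symmetric
square, and for `m = 3` it follows by multiplying with the Gram matrix entry by entry. So the first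
three Fourier coefficients of the phases are small, and there are trigonometric polynomials of
degree three with a positive mean that are negative outside an arc longer than a quarter of the
circle.
-/

namespace Pool.Agent.Results.MP_d0f9e0_co.PhaseDistribution

open Finset
open scoped ComplexConjugate

/-- `x` is a maximal equiangular tight frame in `ℂ^d`. -/
def IsMaximalETF (d : ℕ) (x : Fin (d ^ 2) → EuclideanSpace ℂ (Fin d)) : Prop :=
  (∀ i, ‖x i‖ = 1) ∧ ∀ i j, i ≠ j → ‖inner ℂ (x i) (x j)‖ = 1 / Real.sqrt ((d : ℝ) + 1)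

/-- The phase of the triple product of the lines `k`, `i`, `j`: for distinct lines this is a complex
number of modulus `1`. -/
noncomputable def phase {d : ℕ} (x : Fin (d ^ 2) → EuclideanSpace ℂ (Fin d))
    (k i j : Fin (d ^ 2)) : ℂ :=
  ((√((d : ℝ) + 1) ^ 3 : ℝ) : ℂ) *
    (inner ℂ (x k) (x i) * inner ℂ (x i) (x j) * inner ℂ (x j) (x k))

/-- The pairs `(i, j)` with `i ∈ S`, `j ∈ T`, `i ≠ j`. -/
def pairs {d : ℕ} (S T : Finset (Fin (d ^ 2))) : Finset (Fin (d ^ 2) × Fin (d ^ 2)) :=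
  (S ×ˢ T).filter fun p => p.1 ≠ p.2

/-- The number of pairs `(i, j)` with `i ∈ S`, `j ∈ T`, `i ≠ j` such that the phase of `k, i, j` is in
the arc of the circle with centre `ω` which consists of the numbers `z` with `Re (z ω*) ≥ c`. -/
noncomputable def arcPairs {d : ℕ} (x : Fin (d ^ 2) → EuclideanSpace ℂ (Fin d)) (k : Fin (d ^ 2))
    (S T : Finset (Fin (d ^ 2))) (ω : ℂ) (c : ℝ) : ℕ := by
  classical
  exact ((pairs S T).filter fun p => c ≤ (phase x k p.1 p.2 * conj ω).re).card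

/-- The number of the lines `j` different from `k` and `i` such that the phase of `k, i, j` is in the
same arc. -/
noncomputable def arcLines {d : ℕ} (x : Fin (d ^ 2) → EuclideanSpace ℂ (Fin d))
    (k i : Fin (d ^ 2)) (ω : ℂ) (c : ℝ) : ℕ := by
  classical
  exact (univ.filter fun j => j ≠ k ∧ j ≠ i ∧ c ≤ (phase x k i j * conj ω).re).card

theorem arcPairs_eq {d : ℕ} (x : Fin (d ^ 2) → EuclideanSpace ℂ (Fin d)) (k : Fin (d ^ 2))
    (S T : Finset (Fin (d ^ 2))) (ω : ℂ) (c : ℝ) :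
    arcPairs x k S T ω c = (Pool.Agent.H239.PH.arcN x k S T ω c).card := rfl

theorem arcLines_eq {d : ℕ} (x : Fin (d ^ 2) → EuclideanSpace ℂ (Fin d)) (k i : Fin (d ^ 2))
    (ω : ℂ) (c : ℝ) : arcLines x k i ω c = (Pool.Agent.H239.PH.arcP x k i ω c).card := by
  classical
  unfold arcLines Pool.Agent.H239.PH.arcP
  congr 1
  ext j
  simp only [mem_filter, mem_univ, true_and, mem_erase, and_true]
  constructor
  · rintro ⟨h1, h2, h3⟩
    exact ⟨⟨h2, h1⟩, h3⟩
  · rintro ⟨⟨h1, h2⟩, h3⟩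
    exact ⟨h2, h1, h3⟩

/-- **The phases of the triple products of a maximal equiangular tight frame.** Let `x` be a maximal
ETF in `ℂ^d`, `d ≥ 2`. Let `k` be a line, `S` and `T` sets of other lines, `‖ω‖ = 1`.
* The phases of distinct lines have modulus `1`, and their first three powers, as bilinear forms on
  `S × T` (without the diagonal), have norms at most `(d - 1) √(d + 1)`, `d + 1`, `(d + 1)^(3/2)`.
* Every arc `{z : Re (z ω*) ≥ c}` longer than a quarter of the circle (`c < 1/√2`) contains the phases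
  of at least `((1/√2 - c) P - 5 (d+1)^(3/2) √(|S||T|)) / 6` of the `P` pairs, and a short arc
  (`0 < c ≤ 1`) those of at most `(P / 4 + (3/4) (d+1)^(3/2) √(|S||T|)) / (c² (1 + c) / 2)`.
* If the phases of `k, i, j` avoid such a long arc for all distinct `i, j ∈ S`, then
  `|S| ≤ 1 + 5 (d+1)^(3/2) / (1/√2 - c)`.
* For two given lines `k ≠ i` and an arc longer than a third of the circle (`c < 1/2`) the
  corresponding bounds for the number of lines `j`.
* For all lines `i` with at most `400 (d + 1) / (1/√2 - c)²` exceptions there are at least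
  `(1/√2 - c) (d² - 1) / 12` lines `j` for which the phase of `k, i, j` is in the long arc. -/
theorem result (d : ℕ) (hd : 2 ≤ d) (x : Fin (d ^ 2) → EuclideanSpace ℂ (Fin d))
    (hx : IsMaximalETF d x) :
    (∀ k i j, k ≠ i → i ≠ j → j ≠ k → ‖phase x k i j‖ = 1) ∧
    (∀ (k : Fin (d ^ 2)) (S T : Finset (Fin (d ^ 2))), k ∉ S → k ∉ T →
      ∀ a b : Fin (d ^ 2) → ℂ,
        ‖∑ p ∈ pairs S T, a p.1 * b p.2 * phase x k p.1 p.2‖ ≤
          (((d : ℝ) - 1) * √((d : ℝ) + 1)) * (√(∑ i ∈ S, ‖a i‖ ^ 2) * √(∑ j ∈ T, ‖b j‖ ^ 2)) ∧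
        ‖∑ p ∈ pairs S T, a p.1 * b p.2 * phase x k p.1 p.2 ^ 2‖ ≤
          ((d : ℝ) + 1) * (√(∑ i ∈ S, ‖a i‖ ^ 2) * √(∑ j ∈ T, ‖b j‖ ^ 2)) ∧
        ‖∑ p ∈ pairs S T, a p.1 * b p.2 * phase x k p.1 p.2 ^ 3‖ ≤
          √((d : ℝ) + 1) ^ 3 * (√(∑ i ∈ S, ‖a i‖ ^ 2) * √(∑ j ∈ T, ‖b j‖ ^ 2))) ∧
    (∀ (k : Fin (d ^ 2)) (S T : Finset (Fin (d ^ 2))), k ∉ S → k ∉ T → ∀ (ω : ℂ) (c : ℝ), ‖ω‖ = 1 →
      (-1 ≤ c → c ≤ 1 / √2 → (1 / √2 - c) * (pairs S T).card ≤
        6 * arcPairs x k S T ω c + 5 * (√((d : ℝ) + 1) ^ 3 * √((S.card : ℝ) * T.card))) ∧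
      (0 ≤ c → c ^ 2 * (1 + c) / 2 * arcPairs x k S T ω c ≤
        (pairs S T).card / 4 + 3 / 4 * (√((d : ℝ) + 1) ^ 3 * √((S.card : ℝ) * T.card)))) ∧
    (∀ (k : Fin (d ^ 2)) (S : Finset (Fin (d ^ 2))), k ∉ S → ∀ (ω : ℂ) (c : ℝ), ‖ω‖ = 1 →
      -1 ≤ c → c ≤ 1 / √2 → (∀ i ∈ S, ∀ j ∈ S, i ≠ j → (phase x k i j * conj ω).re < c) →
      (1 / √2 - c) * ((S.card : ℝ) - 1) ≤ 5 * √((d : ℝ) + 1) ^ 3) ∧
    (∀ k i : Fin (d ^ 2), k ≠ i → ∀ (ω : ℂ) (c : ℝ), ‖ω‖ = 1 →
      (c ≤ 1 → (1 / 2 - c) * ((d : ℝ) ^ 2 - 2) ≤ 2 * (1 - c) * arcLines x k i ω c +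
        (1 - c) * (((d : ℝ) - 2) * √((d : ℝ) + 1)) + 1) ∧
      (-(1 / 2) ≤ c → (1 + 2 * c) ^ 2 * arcLines x k i ω c ≤
        3 * ((d : ℝ) ^ 2 - 2) + 4 * (((d : ℝ) - 2) * √((d : ℝ) + 1)) + 4)) ∧
    (∀ (k : Fin (d ^ 2)) (ω : ℂ) (c : ℝ), ‖ω‖ = 1 → -1 ≤ c → c ≤ 1 / √2 →
      ∀ B : Finset (Fin (d ^ 2)), (∀ i ∈ B, i ≠ k ∧
        (arcLines x k i ω c : ℝ) < (1 / √2 - c) / 12 * ((d : ℝ) ^ 2 - 1)) →
      (1 / √2 - c) ^ 2 * B.card ≤ 400 * ((d : ℝ) + 1)) := by
  have hx' : Pool.Agent.H239.PH.IsETF x :=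
    ⟨by omega, by rw [Fintype.card_fin], hx.1, hx.2⟩
  refine ⟨fun k i j h1 h2 h3 => Pool.Agent.H239.PH.norm_ph hx' h1 h2 h3,
    fun k S T hS hT a b => ⟨?_, ?_, ?_⟩,
    fun k S T hS hT ω c hω => ⟨fun h1 h2 => ?_, fun h1 => ?_⟩,
    fun k S hS ω c hω h1 h2 h => Pool.Agent.H239.PH.avoiding hx' hd k hS hω h1 h2 h,
    fun k i hki ω c hω => ⟨fun h1 => ?_, fun h1 => ?_⟩,
    fun k ω c hω h1 h2 B hB => Pool.Agent.H239.PH.almost_all hx' hd k hω h1 h2 B fun i hi => ?_⟩
  · have h := Pool.Agent.H239.PH.harmonic hx' hd (Or.inl rfl) k hS hT a b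
    simp only [pow_one, Pool.Agent.H239.PH.nm, if_true] at h
    rw [mul_comm ((d : ℝ) - 1)]
    exact h
  · have h := Pool.Agent.H239.PH.harmonic hx' hd (Or.inr (Or.inl rfl)) k hS hT a b
    have h2 : Pool.Agent.H239.PH.nm d 2 = 1 := by
      unfold Pool.Agent.H239.PH.nm
      rw [if_neg (by norm_num)]
    rw [h2, mul_one, Real.sq_sqrt (by positivity)] at h
    exact h
  · have h := Pool.Agent.H239.PH.harmonic hx' hd (Or.inr (Or.inr rfl)) k hS hT a b
    have h2 : Pool.Agent.H239.PH.nm d 3 = 1 := by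
      unfold Pool.Agent.H239.PH.nm
      rw [if_neg (by norm_num)]
    rw [h2, mul_one] at h
    exact h
  · exact Pool.Agent.H239.PH.arcs hx' hd k hS hT hω h1 h2
  · exact Pool.Agent.H239.PH.arcs_upper hx' hd k hS hT hω h1
  · rw [arcLines_eq]
    exact Pool.Agent.H239.PH.pair_lower hx' hd hki hω h1
  · rw [arcLines_eq]
    exact Pool.Agent.H239.PH.pair_upper hx' hd hki hω h1
  · rw [← arcLines_eq]
    exact hB i hi

end Pool.Agent.Results.MP_d0f9e0_co.PhaseDistribution
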