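import Mathlib
import Pool.Agent.V11226.SU.Phase

set_option autoImplicit false

/-!
# Real and imaginary subsystems of maximal equiangular tight frames

A set of lines of a maximal equiangular tight frame in `ℂ^d` is real if all triple products
`⟨x i, x j⟩⟨x j, x k⟩⟨x k, x i⟩` of its lines are real numbers (that is, it consists of lines
spanned by vectors with real coordinates for some orthonormal basis). While `ℝ^d` can contain up to
`d (d + 1) / 2` equiangular lines, we show that a real set of lines of a maximal equiangular tight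
frame has at most `d` members, and that a set of lines all of whose triple products of distinct
lines are imaginary has at most `d + 2` members.

Proof. The numbers `⟨x s, x t⟩²` are the inner products of the vectors `x s ⊗ x s`, which form a tight
frame of the symmetric square. So every submatrix of their Gram matrix has its eigenvalues between
`0` and `2 d / (d + 1)`. This is applied to the vector with the coordinate `a` for the line `i` and
`(d + 1) ⟨x s, x i⟩²` for the others.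
-/

namespace Pool.Agent.Results.MP_d0f9e0_co.RealSubsystems

open Finset Pool.Agent.V11226.SU

/-- `x` is a maximal equiangular tight frame in `ℂ^d`. -/
def IsMaximalETF (d : ℕ) (x : Fin (d ^ 2) → EuclideanSpace ℂ (Fin d)) : Prop :=
  (∀ i, ‖x i‖ = 1) ∧ ∀ i j, i ≠ j → ‖inner ℂ (x i) (x j)‖ = 1 / Real.sqrt ((d : ℝ) + 1)

/-- The triple product of three lines. -/
noncomputable def triple {d : ℕ} (x : Fin (d ^ 2) → EuclideanSpace ℂ (Fin d))
    (i j k : Fin (d ^ 2)) : ℂ :=
  inner ℂ (x i) (x j) * inner ℂ (x j) (x k) * inner ℂ (x k) (x i)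

/-- For three distinct lines, whose triple product has the argument `θ`, this is `cos (2 θ)`. -/
noncomputable def cosDouble {d : ℕ} (x : Fin (d ^ 2) → EuclideanSpace ℂ (Fin d))
    (i j k : Fin (d ^ 2)) : ℝ :=
  ((d : ℝ) + 1) ^ 3 * (triple x i j k ^ 2).re

theorem norm_triple {d : ℕ} {x : Fin (d ^ 2) → EuclideanSpace ℂ (Fin d)} (hx : IsMaximalETF d x)
    {i j k : Fin (d ^ 2)} (hij : i ≠ j) (hjk : j ≠ k) (hki : k ≠ i) :
    (triple x i j k).re ^ 2 + (triple x i j k).im ^ 2 = 1 / ((d : ℝ) + 1) ^ 3 := by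
  have h1 : ‖triple x i j k‖ = (1 / √((d : ℝ) + 1)) ^ 3 := by
    unfold triple
    rw [norm_mul, norm_mul, hx.2 i j hij, hx.2 j k hjk, hx.2 k i hki]
    ring
  have hs : √((d : ℝ) + 1) ^ 2 = (d : ℝ) + 1 := Real.sq_sqrt (by positivity)
  have h2 : (triple x i j k).re ^ 2 + (triple x i j k).im ^ 2 = ‖triple x i j k‖ ^ 2 := by
    rw [← Complex.normSq_eq_norm_sq, Complex.normSq_apply]
    ring
  rw [h2, h1]
  calc ((1 / √((d : ℝ) + 1)) ^ 3) ^ 2 = 1 / (√((d : ℝ) + 1) ^ 2) ^ 3 := by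
        rw [← pow_mul, ← pow_mul, div_pow, one_pow]
    _ = _ := by rw [hs]

theorem sum_le_of {d : ℕ} (x : Fin (d ^ 2) → EuclideanSpace ℂ (Fin d)) (i : Fin (d ^ 2))
    (S : Finset (Fin (d ^ 2))) (ρ : ℝ) (h : ∀ s ∈ S, ∀ t ∈ S.erase s, ρ ≤ cosDouble x i s t) :
    (S.card : ℝ) * (((S.card : ℝ) - 1) * ρ) ≤ CC x i S := by
  unfold CC
  rw [← nsmul_eq_mul]
  refine card_nsmul_le_sum S _ _ fun s hs => ?_
  have hc : (((S.erase s).card : ℕ) : ℝ) = (S.card : ℝ) - 1 := by
    rw [card_erase_of_mem hs, Nat.cast_sub (card_pos.mpr ⟨s, hs⟩)]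
    simp
  rw [← hc, ← nsmul_eq_mul]
  exact card_nsmul_le_sum _ _ _ fun t ht => h s hs t ht

theorem le_sum_of {d : ℕ} (x : Fin (d ^ 2) → EuclideanSpace ℂ (Fin d)) (i : Fin (d ^ 2))
    (S : Finset (Fin (d ^ 2))) (ρ : ℝ) (h : ∀ s ∈ S, ∀ t ∈ S.erase s, cosDouble x i s t ≤ ρ) :
    CC x i S ≤ (S.card : ℝ) * (((S.card : ℝ) - 1) * ρ) := by
  unfold CC
  rw [← nsmul_eq_mul]
  refine sum_le_card_nsmul S _ _ fun s hs => ?_
  have hc : (((S.erase s).card : ℕ) : ℝ) = (S.card : ℝ) - 1 := by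
    rw [card_erase_of_mem hs, Nat.cast_sub (card_pos.mpr ⟨s, hs⟩)]
    simp
  rw [← hc, ← nsmul_eq_mul]
  exact sum_le_card_nsmul _ _ _ fun t ht => h s hs t ht

/-- **Real and imaginary subsystems of maximal equiangular tight frames.** Let `x` be a maximal
equiangular tight frame in `ℂ^d`, `d ≥ 2`.
* The sum of `cos (2 θ)` over the triples `i, s, t` with `s ≠ t` in a set `S` of `n` lines (which does
  not contain `i`) is between `n² / (d + 1) - (d + 1) n` and `(d - 1) n - n² / (d - 1)`.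
* A set of lines in which all triple products are real has at most `d` members.
* A set of lines in which all triple products of distinct lines are imaginary has at most `d + 2`
  members.
* If `cos (2 θ) ≥ ρ > 0` for all triples of distinct members of a set of lines, then it has at most
  `2 + (d - 1) / ρ` members. -/
theorem result (d : ℕ) (hd : 2 ≤ d) (x : Fin (d ^ 2) → EuclideanSpace ℂ (Fin d))
    (hx : IsMaximalETF d x) :
    (∀ (i : Fin (d ^ 2)) (S : Finset (Fin (d ^ 2))), i ∉ S →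
      (S.card : ℝ) ^ 2 / ((d : ℝ) + 1) - ((d : ℝ) + 1) * S.card ≤
        ∑ s ∈ S, ∑ t ∈ S.erase s, cosDouble x i s t ∧
      ∑ s ∈ S, ∑ t ∈ S.erase s, cosDouble x i s t ≤
        ((d : ℝ) - 1) * S.card - (S.card : ℝ) ^ 2 / ((d : ℝ) - 1)) ∧
    (∀ S : Finset (Fin (d ^ 2)), (∀ i ∈ S, ∀ j ∈ S, ∀ k ∈ S, (triple x i j k).im = 0) →
      S.card ≤ d) ∧
    (∀ S : Finset (Fin (d ^ 2)), (∀ i ∈ S, ∀ j ∈ S, ∀ k ∈ S, i ≠ j → j ≠ k → k ≠ i →
      (triple x i j k).re = 0) → S.card ≤ d + 2) ∧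
    ∀ ρ : ℝ, 0 < ρ → ∀ S : Finset (Fin (d ^ 2)),
      (∀ i ∈ S, ∀ j ∈ S, ∀ k ∈ S, i ≠ j → j ≠ k → k ≠ i → ρ ≤ cosDouble x i j k) →
        (S.card : ℝ) ≤ 2 + ((d : ℝ) - 1) / ρ := by
  classical
  have hb := fun i S hi => CC_bounds hd (Fintype.card_fin _) x hx.1 hx.2 i S hi
  have hD : (2 : ℝ) ≤ (d : ℝ) := by exact_mod_cast hd
  have hre : ∀ i j k, (triple x i j k ^ 2).re =
      (triple x i j k).re ^ 2 - (triple x i j k).im ^ 2 := by
    intro i j k
    rw [sq, Complex.mul_re]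
    ring
  have hcarde : ∀ (S : Finset (Fin (d ^ 2))) (i : Fin (d ^ 2)), i ∈ S →
      ((S.erase i).card : ℝ) = (S.card : ℝ) - 1 := by
    intro S i hi
    rw [card_erase_of_mem hi, Nat.cast_sub (card_pos.mpr ⟨i, hi⟩)]
    simp
  have hrho : ∀ ρ : ℝ, 0 < ρ → ∀ S : Finset (Fin (d ^ 2)), ∀ i ∈ S, 2 ≤ S.card →
      (∀ j ∈ S, ∀ k ∈ S, i ≠ j → j ≠ k → k ≠ i → ρ ≤ cosDouble x i j k) →
        ((S.card : ℝ) - 2) * ρ ≤ ((d : ℝ) - 1) - ((S.card : ℝ) - 1) / ((d : ℝ) - 1) := by
    intro ρ hρ S i hi hS h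
    have h1 := (hb i (S.erase i) (notMem_erase i S)).2
    have h2 := sum_le_of x i (S.erase i) ρ (fun s hs t ht => by
      have hs' := mem_erase.mp hs
      have ht' := mem_erase.mp ht
      have ht'' := mem_erase.mp ht'.2
      exact h s hs'.2 t ht''.2 (Ne.symm hs'.1) (Ne.symm ht'.1) ht''.1)
    have h3 := h2.trans h1
    rw [hcarde S i hi] at h3
    have hn : (0 : ℝ) < (S.card : ℝ) - 1 := by
      have : (2 : ℝ) ≤ S.card := by exact_mod_cast hS
      linarith
    have e : ((d : ℝ) - 1) * ((S.card : ℝ) - 1) - ((S.card : ℝ) - 1) ^ 2 / ((d : ℝ) - 1) =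
        ((S.card : ℝ) - 1) * (((d : ℝ) - 1) - ((S.card : ℝ) - 1) / ((d : ℝ) - 1)) := by ring
    rw [e] at h3
    have h4 := le_of_mul_le_mul_left h3 hn
    linarith
  refine ⟨fun i S hi => hb i S hi, fun S hS => ?_, fun S hS => ?_, fun ρ hρ S hS => ?_⟩
  · by_contra hc
    push Not at hc
    obtain ⟨i, hi⟩ := card_pos.mp (by omega : 0 < S.card)
    have h1 := hrho 1 one_pos S i hi (by omega) (fun j hj k hk hij hjk hki => by
      unfold cosDouble
      have h2 := norm_triple hx hij hjk hki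
      rw [hre, hS i hi j hj k hk]
      rw [hS i hi j hj k hk] at h2
      have h3 : (triple x i j k).re ^ 2 - 0 ^ 2 = 1 / ((d : ℝ) + 1) ^ 3 := by linarith
      rw [h3, mul_one_div_cancel (by positivity)])
    have hSc : (d : ℝ) + 1 ≤ S.card := by exact_mod_cast hc
    have h5 : 1 < ((S.card : ℝ) - 1) / ((d : ℝ) - 1) := by
      rw [one_lt_div (by linarith)]
      linarith
    linarith
  · by_contra hc
    push Not at hc
    obtain ⟨i, hi⟩ := card_pos.mp (by omega : 0 < S.card)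
    have h1 := (hb i (S.erase i) (notMem_erase i S)).1
    have h2 := le_sum_of x i (S.erase i) (-1) (fun s hs t ht => by
      have hs' := mem_erase.mp hs
      have ht' := mem_erase.mp ht
      have ht'' := mem_erase.mp ht'.2
      unfold cosDouble
      have h2 := norm_triple hx (Ne.symm hs'.1) (Ne.symm ht'.1) ht''.1
      have h0 := hS i hi s hs'.2 t ht''.2 (Ne.symm hs'.1) (Ne.symm ht'.1) ht''.1
      rw [hre, h0]
      rw [h0] at h2
      have h3 : 0 ^ 2 - (triple x i s t).im ^ 2 = -(1 / ((d : ℝ) + 1) ^ 3) := by linarith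
      rw [h3, mul_neg, mul_one_div_cancel (by positivity)])
    have h3 := h1.trans h2
    rw [hcarde S i hi] at h3
    have hSc : (d : ℝ) + 3 ≤ S.card := by exact_mod_cast hc
    have hn : (0 : ℝ) < (S.card : ℝ) - 1 := by linarith
    have e1 : ((S.card : ℝ) - 1) ^ 2 / ((d : ℝ) + 1) - ((d : ℝ) + 1) * ((S.card : ℝ) - 1) =
        ((S.card : ℝ) - 1) * (((S.card : ℝ) - 1) / ((d : ℝ) + 1) - ((d : ℝ) + 1)) := by ring
    rw [e1] at h3
    have h4 := le_of_mul_le_mul_left h3 hn
    have h5 : 1 < ((S.card : ℝ) - 1) / ((d : ℝ) + 1) := by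
      rw [one_lt_div (by linarith)]
      linarith
    linarith
  · rcases lt_or_ge S.card 2 with hc | hc
    · have h1 : (S.card : ℝ) < 2 := by exact_mod_cast hc
      have h2 : 0 ≤ ((d : ℝ) - 1) / ρ := div_nonneg (by linarith) hρ.le
      linarith
    · obtain ⟨i, hi⟩ := card_pos.mp (by omega : 0 < S.card)
      have h1 := hrho ρ hρ S i hi hc (fun j hj k hk hij hjk hki => hS i hi j hj k hk hij hjk hki)
      have h2 : 0 ≤ ((S.card : ℝ) - 1) / ((d : ℝ) - 1) := by
        apply div_nonneg _ (by linarith)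
        have : (2 : ℝ) ≤ S.card := by exact_mod_cast hc
        linarith
      have h3 : (S.card : ℝ) - 2 ≤ ((d : ℝ) - 1) / ρ := by
        rw [le_div_iff₀ hρ]
        linarith
      linarith

end Pool.Agent.Results.MP_d0f9e0_co.RealSubsystems
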