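import Mathlib
import Pool.Agent.V11226.SU.Main

set_option autoImplicit false

/-!
# Maximal equiangular tight frames are determined by all but about `d ^ (3/2)` of their lines

Let `x` be a maximal equiangular tight frame in `ℂ^d` and let `y` be a unit vector which makes the
angle `1/√(d+1)` with all the `x i`, `i ∉ R`. If `R` has at most `d ^ (3/2) / 4` elements and
`d ≥ 35`, or at most `(1 - ε) d ^ (3/2)` elements and `d ≥ 20736 / ε ^ 4`, then `y` spans one of the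
lines of the `x k`, `k ∈ R`. Hence two maximal equiangular tight frames in `ℂ^d` with more than
`d ^ 2 - (1 - ε) d ^ (3/2)` common lines have the same lines.

Proof. Let `q i = |⟨x i, y⟩|²`, let `q = q k` be the largest `q i`, `i ∈ R`, `t = 1 - q` and
`w = y - ⟨x k, y⟩ x k`. The numbers `q i` are equal to `1/(d+1)` outside `R`, and their sum and the sum
of their squares are known, so that `q (1 + (|R| - 1)/(d+1)) ≥ 1`. By the design identity the numbers
`b i = 2 Re (conj ⟨x k, y⟩ ⟨x k, x i⟩ ⟨x i, w⟩)` satisfy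
`∑ b i (q i - 1/(d+1)) = 2 d q t / (d+1)`, where only the `i ∈ R`, `i ≠ k`, contribute.
An upper bound for the left side, in which the negative terms are small because of
`q i - 1/(d+1) ≥ -1/(d+1)`, shows that `t` is small or `|R|` is at least about `t d ^ (3/2)`; the
Cauchy-Schwarz inequality shows that `q` is small or `|R|` is at least about `q² d² / 8`, if `t > 0`.
-/

namespace Pool.Agent.Results.MP_d0f9e0_co.UniqueCompletion

open Finset Pool.Agent.V11226.SU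

/-- `x` is a maximal equiangular tight frame in `ℂ^d`. -/
def IsMaximalETF (d : ℕ) (x : Fin (d ^ 2) → EuclideanSpace ℂ (Fin d)) : Prop :=
  (∀ i, ‖x i‖ = 1) ∧ ∀ i j, i ≠ j → ‖inner ℂ (x i) (x j)‖ = 1 / Real.sqrt ((d : ℝ) + 1)

/-- Every unit vector which makes the angle `1/√(d+1)` with all the `x i`, `i ∉ R`, spans the line
of one of the vectors `x k`, `k ∈ R`. -/
def DeterminedOutside {d : ℕ} (x : Fin (d ^ 2) → EuclideanSpace ℂ (Fin d))
    (R : Finset (Fin (d ^ 2))) : Prop :=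
  ∀ y : EuclideanSpace ℂ (Fin d), ‖y‖ = 1 →
    (∀ i, i ∉ R → ‖inner ℂ (x i) y‖ = 1 / Real.sqrt ((d : ℝ) + 1)) →
    ∃ k ∈ R, ∃ c : ℂ, y = c • x k

/-- The line of `x i` is one of the lines of the vectors of `z`. -/
def Common {d : ℕ} (x z : Fin (d ^ 2) → EuclideanSpace ℂ (Fin d)) (i : Fin (d ^ 2)) : Prop :=
  ∃ (j : Fin (d ^ 2)) (c : ℂ), z j = c • x i

/-- `x` and `z` have the same lines, up to their order. -/
def SameLines {d : ℕ} (x z : Fin (d ^ 2) → EuclideanSpace ℂ (Fin d)) : Prop :=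
  ∃ σ : Equiv.Perm (Fin (d ^ 2)), ∀ j, ∃ c : ℂ, ‖c‖ = 1 ∧ z j = c • x (σ j)

theorem beta_le {d r : ℕ} (hd : 0 < d) {a : ℝ} (ha : 0 ≤ a)
    (hr : (r : ℝ) ≤ a * (d : ℝ) ^ (3 / 2 : ℝ)) :
    ((r : ℝ) - 1) / ((d : ℝ) + 1) ≤ a * √((d : ℝ) + 1) := by
  have hD : (0 : ℝ) < (d : ℝ) := by exact_mod_cast hd
  have e : (d : ℝ) ^ (3 / 2 : ℝ) = (d : ℝ) * √(d : ℝ) := by
    rw [Real.sqrt_eq_rpow, show (3 / 2 : ℝ) = 1 + 1 / 2 by norm_num, Real.rpow_add hD,
      Real.rpow_one]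
  rw [div_le_iff₀ (by linarith)]
  have h1 : √(d : ℝ) ≤ √((d : ℝ) + 1) := Real.sqrt_le_sqrt (by linarith)
  have h2 : (d : ℝ) * √(d : ℝ) ≤ ((d : ℝ) + 1) * √((d : ℝ) + 1) :=
    mul_le_mul (by linarith) h1 (Real.sqrt_nonneg _) (by linarith)
  have h3 : a * ((d : ℝ) * √(d : ℝ)) ≤ a * (((d : ℝ) + 1) * √((d : ℝ) + 1)) :=
    mul_le_mul_of_nonneg_left h2 ha
  rw [e] at hr
  nlinarith

theorem determined {d : ℕ} (hd : 0 < d) {x : Fin (d ^ 2) → EuclideanSpace ℂ (Fin d)}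
    (hx : IsMaximalETF d x) {a : ℝ} (ha : 0 ≤ a)
    (hcon : ∀ u β q t : ℝ, 0 < u → u ^ 2 = (d : ℝ) + 1 → 0 ≤ β → β ≤ a * u → 0 < q → 0 < t →
      q + t = 1 → 1 ≤ q * (1 + β) →
      (d : ℝ) * t ≤ (u + 1) * t + β * (u + 2 + 1 / √q) →
      q * (d : ℝ) ^ 2 ≤ √(2 * (d : ℝ) * β) * (2 * (d : ℝ) - t * ((d : ℝ) + 1)) → False)
    (R : Finset (Fin (d ^ 2))) (hR : (R.card : ℝ) ≤ a * (d : ℝ) ^ (3 / 2 : ℝ)) :
    DeterminedOutside x R := by
  intro y hy hyR
  by_contra hne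
  push Not at hne
  obtain ⟨hr, q, t, hq, ht, hqt, h1, hA, hB⟩ := two_ineqs hd (Fintype.card_fin _) x hx.1 hx.2 R y
    hy hyR hne
  have hD : (0 : ℝ) < (d : ℝ) := by exact_mod_cast hd
  have hr1 : (1 : ℝ) ≤ R.card := by exact_mod_cast hr
  exact hcon _ _ q t (Real.sqrt_pos.mpr (by linarith)) (Real.sq_sqrt (by linarith))
    (div_nonneg (by linarith) (by linarith)) (beta_le hd ha hR) hq ht hqt h1 hA hB

theorem sameLines {d : ℕ} (hd : 0 < d) {x z : Fin (d ^ 2) → EuclideanSpace ℂ (Fin d)}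
    (hx : IsMaximalETF d x) (hz : IsMaximalETF d z) (S : Finset (Fin (d ^ 2)))
    (hS : ∀ i ∈ S, Common x z i) (hdet : DeterminedOutside x (univ \ S)) : SameLines x z := by
  classical
  have hD : (0 : ℝ) < (d : ℝ) := by exact_mod_cast hd
  have hc1 : ∀ (i j : Fin (d ^ 2)) (c : ℂ), z j = c • x i → ‖c‖ = 1 := by
    intro i j c h
    have h1 := congrArg norm h
    rw [norm_smul, hx.1, hz.1, mul_one] at h1
    exact h1.symm
  have hex : ∀ j, ∃ i, ∃ c : ℂ, z j = c • x i := by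
    intro j
    by_cases hj : ∃ i ∈ S, ∃ c : ℂ, z j = c • x i
    · obtain ⟨i, -, c, h⟩ := hj
      exact ⟨i, c, h⟩
    · push Not at hj
      obtain ⟨k, -, c, h⟩ := hdet (z j) (hz.1 j) (fun i hi => by
        have hiS : i ∈ S := by
          by_contra h
          exact hi (mem_sdiff.mpr ⟨mem_univ _, h⟩)
        obtain ⟨j', c, h⟩ := hS i hiS
        have hjj : j' ≠ j := by
          rintro rfl
          exact hj i hiS c h
        have h3 := hz.2 j' j hjj
        rw [h, inner_smul_left, norm_mul, RCLike.norm_conj, hc1 i j' c h, one_mul] at h3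
        exact h3)
      exact ⟨k, c, h⟩
  choose f c hf using hex
  have hinj : Function.Injective f := by
    intro j j' hjj
    by_contra hne
    have h3 := hz.2 j j' hne
    rw [hf j, hf j', hjj, inner_smul_left, inner_smul_right, norm_mul, norm_mul,
      RCLike.norm_conj, hc1 _ j _ (hf j), hc1 _ j' _ (hf j'), one_mul, one_mul,
      inner_self_eq_norm_sq_to_K, hx.1] at h3
    simp only [RCLike.ofReal_one, one_pow, norm_one] at h3
    have h4 : 1 < √((d : ℝ) + 1) := by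
      rw [Real.lt_sqrt (by norm_num)]
      linarith
    have h5 : 1 / √((d : ℝ) + 1) < 1 := by
      rw [div_lt_one (by linarith)]
      exact h4
    linarith
  refine ⟨Equiv.ofBijective f (Finite.injective_iff_bijective.mp hinj), fun j => ?_⟩
  exact ⟨c j, hc1 _ j _ (hf j), hf j⟩

theorem hcon1 {d : ℕ} (hd : 35 ≤ d) (u β q t : ℝ) (hu : 0 < u) (hu2 : u ^ 2 = (d : ℝ) + 1)
    (hβ : 0 ≤ β) (hβu : β ≤ 1 / 4 * u) (hq : 0 < q) (ht : 0 < t)
    (hqt : q + t = 1) (h1 : 1 ≤ q * (1 + β))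
    (hA : (d : ℝ) * t ≤ (u + 1) * t + β * (u + 2 + 1 / √q))
    (hB : q * (d : ℝ) ^ 2 ≤ √(2 * (d : ℝ) * β) * (2 * (d : ℝ) - t * ((d : ℝ) + 1))) : False :=
  contra1 (by exact_mod_cast hd) hu hu2 hβ (by linarith) hq ht hqt h1 hA hB

/-- **Maximal equiangular tight frames are determined by all but about `d ^ (3/2)` of their
lines.** -/
theorem result :
    (∀ d : ℕ, 35 ≤ d → ∀ x : Fin (d ^ 2) → EuclideanSpace ℂ (Fin d), IsMaximalETF d x →
      (∀ R : Finset (Fin (d ^ 2)), (R.card : ℝ) ≤ 1 / 4 * (d : ℝ) ^ (3 / 2 : ℝ) →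
        DeterminedOutside x R) ∧
      ∀ z : Fin (d ^ 2) → EuclideanSpace ℂ (Fin d), IsMaximalETF d z →
        ∀ S : Finset (Fin (d ^ 2)), (∀ i ∈ S, Common x z i) →
        (d : ℝ) ^ 2 - 1 / 4 * (d : ℝ) ^ (3 / 2 : ℝ) ≤ (S.card : ℝ) → SameLines x z) ∧
    ∀ ε : ℝ, 0 < ε → ε ≤ 1 → ∀ d : ℕ, 20736 / ε ^ 4 ≤ (d : ℝ) →
      ∀ x : Fin (d ^ 2) → EuclideanSpace ℂ (Fin d), IsMaximalETF d x →
      (∀ R : Finset (Fin (d ^ 2)), (R.card : ℝ) ≤ (1 - ε) * (d : ℝ) ^ (3 / 2 : ℝ) →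
        DeterminedOutside x R) ∧
      ∀ z : Fin (d ^ 2) → EuclideanSpace ℂ (Fin d), IsMaximalETF d z →
        ∀ S : Finset (Fin (d ^ 2)), (∀ i ∈ S, Common x z i) →
        (d : ℝ) ^ 2 - (1 - ε) * (d : ℝ) ^ (3 / 2 : ℝ) ≤ (S.card : ℝ) → SameLines x z := by
  classical
  have hcomp : ∀ {d : ℕ} (S : Finset (Fin (d ^ 2))),
      ((univ \ S).card : ℝ) = (d : ℝ) ^ 2 - S.card := by
    intro d S
    have h3 : (univ \ S).card + S.card = d ^ 2 := by
      rw [card_sdiff_add_card_eq_card (subset_univ S), card_univ, Fintype.card_fin]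
    have h4 : (((univ \ S).card + S.card : ℕ) : ℝ) = ((d ^ 2 : ℕ) : ℝ) := by rw [h3]
    push_cast at h4
    linarith
  refine ⟨fun d hd x hx => ?_, fun ε hε hε1 d hd x hx => ?_⟩
  · have hd0 : 0 < d := by omega
    have key : ∀ R : Finset (Fin (d ^ 2)), (R.card : ℝ) ≤ 1 / 4 * (d : ℝ) ^ (3 / 2 : ℝ) →
        DeterminedOutside x R := fun R hR => determined hd0 hx (by norm_num) (hcon1 hd) R hR
    refine ⟨key, fun z hz S hS hc => ?_⟩
    exact sameLines hd0 hx hz S hS (key _ (by rw [hcomp]; linarith))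
  · have hD : (0 : ℝ) < (d : ℝ) := lt_of_lt_of_le (by positivity) hd
    have hd0 : 0 < d := by exact_mod_cast hD
    have key : ∀ R : Finset (Fin (d ^ 2)), (R.card : ℝ) ≤ (1 - ε) * (d : ℝ) ^ (3 / 2 : ℝ) →
        DeterminedOutside x R := fun R hR => determined hd0 hx (by linarith)
      (fun u β q t hu hu2 hβ hβu hq ht hqt h1 hA hB =>
        contra2 hε hε1 (by linarith) hu hu2 hβ hβu hq ht hqt h1 hA hB) R hR
    refine ⟨key, fun z hz S hS hc => ?_⟩
    exact sameLines hd0 hx hz S hS (key _ (by rw [hcomp]; linarith))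

end Pool.Agent.Results.MP_d0f9e0_co.UniqueCompletion
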